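import Pool.Agent.Q31.SP.Gen

/-! The group has spread exactly one. -/

set_option autoImplicit false

namespace Pool.Agent.Q31.SP

open Pool.Agent.Helper283.PL

theorem sq_mem {g : Equiv.Perm ℝ} (hg : g ∈ Gr) : g * g ∈ PLH := by
  rcases hg.1 with h | h
  · exact mul_mem h h
  · exact anti_anti h h

theorem zpow_two_even (k : ℤ) : (-2 : ℝ) ^ (k + k) = (2 : ℝ) ^ (k + k) :=
  Even.neg_zpow ⟨k, rfl⟩ 2

theorem sq_ne {g : Equiv.Perm ℝ} (hg : g ∈ Gr) (h1 : g ≠ 1) : g * g ≠ 1 := by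
  intro h
  obtain ⟨p, hp⟩ : ∃ p, g p ≠ p := by
    by_contra hcon
    push Not at hcon
    exact h1 (Equiv.ext hcon)
  have hgg : ∀ t, g (g t) = t := fun t => by
    have := congrArg (fun f : Equiv.Perm ℝ => f t) h
    simpa using this
  obtain ⟨hg1, k, hk⟩ := hg
  rcases hg1 with hg1 | hg1
  · rcases lt_or_gt_of_ne hp with h2 | h2
    · have h3 := hg1.1 h2
      rw [hgg] at h3
      exact absurd h2 (not_lt.2 h3.le)
    · have h3 := hg1.1 h2
      rw [hgg] at h3
      exact absurd h2 (not_lt.2 h3.le)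
  · have hI := hk.mul hk
    rw [h] at hI
    obtain ⟨M, hM⟩ := hI
    have h3 := hM (max M 1) (by rw [abs_of_nonneg (by positivity)]; exact le_max_left _ _)
    rw [zpow_two_even, Equiv.Perm.one_apply] at h3
    have h4 : (0 : ℝ) < max M 1 := lt_max_of_lt_right one_pos
    have h5 : (2 : ℝ) ^ (k + k) = (2 : ℝ) ^ (0 : ℤ) := by
      rw [zpow_zero]
      have : ((2 : ℝ) ^ (k + k) - 1) * max M 1 = 0 := by linarith
      rcases mul_eq_zero.1 this with h6 | h6
      · linarith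
      · exact absurd h6 h4.ne'
    have h6 : k + k = 0 := zpow_right_injective₀ (by norm_num : (0:ℝ) < 2) (by norm_num) h5
    have h7 : k = 0 := by omega
    subst h7
    obtain ⟨N, hN⟩ := hk
    have ha := anti hg1
    have e1 := hN (max N 1) (by rw [abs_of_nonneg (by positivity)]; exact le_max_left _ _)
    have e2 := hN (max N 1 + 1) (by
      rw [abs_of_nonneg (by positivity)]; linarith [le_max_left N 1])
    rw [zpow_zero, one_mul] at e1 e2
    have := ha (show max N 1 < max N 1 + 1 by linarith)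
    rw [e1, e2] at this
    linarith

/-- one spread -/
theorem one_spread {g : Equiv.Perm ℝ} (hg : g ∈ Gr) (h1 : g ≠ 1) :
    ∃ y ∈ Gr, Gr ≤ Subgroup.closure {g, y} := by
  obtain ⟨q, hq⟩ : ∃ p, (g * g) p ≠ p := by
    by_contra hcon
    push Not at hcon
    exact sq_ne hg h1 (Equiv.ext hcon)
  obtain ⟨x, hxm, hxc, p, hp⟩ : ∃ x ∈ PLH, (∀ y, x ∈ Subgroup.closure {g, y}) ∧ ∃ p, x p < p := by
    have hcl : ∀ y, g * g ∈ Subgroup.closure {g, y} := fun y =>
      mul_mem (Subgroup.subset_closure (by simp)) (Subgroup.subset_closure (by simp))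
    rcases lt_or_gt_of_ne hq with h2 | h2
    · exact ⟨g * g, sq_mem hg, hcl, q, h2⟩
    · exact ⟨(g * g)⁻¹, inv_mem (sq_mem hg), fun y => inv_mem (hcl y), q,
        inv_lt_of (sq_mem hg).1 h2⟩
  obtain ⟨a, da, ha1, ha2⟩ := Dy.exists_between hp
  obtain ⟨δ, dδ, hδ1, hδ2⟩ := Dy.exists_between (show (0 : ℝ) < (p - a) / 3 by linarith)
  have hxa : x (a + 3 * δ) < a := by
    have : a + 3 * δ < p := by linarith
    exact (hxm.1 this).trans ha1
  have h2 : Dy (2 : ℝ) := by exact_mod_cast Dy.int 2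
  obtain ⟨A, hA, B, hB, hgen⟩ := gen_Sup da (da.add (h2.mul dδ)) (show a < a + 2 * δ by linarith)
  obtain ⟨y, ym, yI, y2, y3, y4, y5, y6⟩ := exists_y hxm da dδ hδ1 hxa hA hB
  have hy : y ∈ Gr := ⟨Or.inr ym, 1, yI⟩
  refine ⟨y, hy, ?_⟩
  have hle : Subgroup.closure {g, y} ≤ Gr := by
    rw [Subgroup.closure_le]
    rintro f (rfl | hf)
    · exact hg
    · rw [Set.mem_singleton_iff] at hf
      rw [hf]; exact hy
  have C : Cfg (Subgroup.closure {g, y}) x y A B a δ :=
    { da := da, dd := dδ, pos := hδ1, le := hle, hx := hxc y,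
      hy := Subgroup.subset_closure (by simp), xm := hxm, ym := ym, yI := yI, hA := hA, hB := hB,
      gen := hgen, y2 := y2, y3 := y3, y4 := y4, y5 := y5, y6 := y6 }
  exact C.top

/-- `s ↦ -2 s` -/
noncomputable def dil : Equiv.Perm ℝ where
  toFun s := -2 * s
  invFun s := -s / 2
  left_inv s := by ring
  right_inv s := by ring

theorem dil_apply (s : ℝ) : dil s = -2 * s := rfl

theorem nu_dil : nu * dil ∈ PLH := by
  have h : ∀ s, (nu * dil) s = 2 ^ (1 : ℤ) * s + 0 := fun s => by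
    rw [Equiv.Perm.mul_apply, dil_apply, nu_apply, zpow_one]; ring
  refine ⟨fun s t hst => ?_, fun x => ?_⟩
  · rw [h, h, zpow_one]; linarith
  · have := PLat_affine 1 Dy.zero x
    have e : ((nu * dil : Equiv.Perm ℝ) : ℝ → ℝ) = fun y => (2 : ℝ) ^ (1 : ℤ) * y + 0 := funext h
    rw [e]; exact this

theorem dil_mem : dil ∈ Gr := ⟨Or.inr nu_dil, 1, 0, fun s _ => by rw [dil_apply, zpow_one]⟩

theorem not_mono : dil ∉ PLH := fun h => by
  have := h.1 (show (0 : ℝ) < 1 by norm_num)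
  rw [dil_apply, dil_apply] at this
  norm_num at this

/-- every point is moved -/
theorem exists_mover (p : ℝ) : ∃ f ∈ Gr, f p ≠ p := by
  by_cases hp : p = 0
  · subst hp
    have d1 : Dy (1 / 2) := ⟨1, 1, by norm_num⟩
    obtain ⟨k, ⟨u, v, -, -, hk⟩, h⟩ := exists_move (u := -1) (v := 1) Dy.zero d1 (by norm_num)
      (by norm_num) (by norm_num) (by norm_num)
    exact ⟨k, Sup_le_Gr u v hk, by rw [h]; norm_num⟩
  · refine ⟨dil, dil_mem, fun h => hp ?_⟩
    rw [dil_apply] at h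
    linarith

theorem not_two : ∃ x₁ ∈ Gr, ∃ x₂ ∈ Gr, x₁ ≠ 1 ∧ x₂ ≠ 1 ∧
    ∀ y ∈ Gr, ¬ (Gr ≤ Subgroup.closure {x₁, y} ∧ Gr ≤ Subgroup.closure {x₂, y}) := by
  obtain ⟨x, hx, hx1⟩ := exists_bump_10658
  have hx2 : nu * x * nu ∈ PLH := nu_conj hx.1
  have hap : ∀ s, (nu * x * nu) s = -x (-s) := fun s => rfl
  refine ⟨x, Sup_le_Gr _ _ hx, nu * x * nu, ⟨Or.inl hx2, 0, 1, fun s hs => ?_⟩, hx1, fun h => ?_,
    fun y hy ⟨h1, h2⟩ => ?_⟩
  · rw [hap, zpow_zero, one_mul]
    rcases le_total 0 s with h0 | h0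
    · rw [hx.2 (-s) (Or.inl (by linarith)), neg_neg]
    · rw [abs_of_nonpos h0] at hs
      rw [hx.2 (-s) (Or.inr (by linarith)), neg_neg]
  · apply hx1
    have : x = nu * (nu * x * nu) * nu := by
      calc x = 1 * x * 1 := by group
        _ = (nu * nu) * x * (nu * nu) := by rw [nu_nu]
        _ = _ := by group
    rw [this, h, mul_one, nu_nu]
  · have hcl : ∀ z, z ∈ PLH → y ∈ PLH → Subgroup.closure {z, y} ≤ PLH := fun z hz hy' => by
      rw [Subgroup.closure_le]
      rintro f (rfl | hf)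
      · exact hz
      · rw [Set.mem_singleton_iff] at hf
        rw [hf]; exact hy'
    rcases hy.1 with h3 | h3
    · exact not_mono (hcl x hx.1 h3 (h1 dil_mem))
    · obtain ⟨p, hp⟩ := exists_fix h3
      obtain ⟨f, hf, hfp⟩ := exists_mover p
      rcases le_or_gt p (1 / 4) with h4 | h4
      · exact hfp (closure_fix (hx.2 p (Or.inl h4)) hp (h1 hf))
      · refine hfp (closure_fix ?_ hp (h2 hf))
        rw [hap, hx.2 (-p) (Or.inl (by linarith)), neg_neg]

end Pool.Agent.Q31.SP
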