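import Pool.Agent.Q31.SP.Wye

/-! The two elements generate. -/

set_option autoImplicit false

namespace Pool.Agent.Q31.SP

open Pool.Agent.Helper283.PL

theorem Sup_range {u v : ℝ} {f : Equiv.Perm ℝ} (hf : f ∈ Sup u v) {t : ℝ} (h1 : u ≤ t)
    (h2 : t ≤ v) : u ≤ f t ∧ f t ≤ v := by
  have a := hf.1.1.monotone h1
  have b := hf.1.1.monotone h2
  rw [hf.2 u (Or.inl le_rfl)] at a
  rw [hf.2 v (Or.inr le_rfl)] at b
  exact ⟨a, b⟩

theorem nu_canc (f : Equiv.Perm ℝ) : nu * (nu * f) = f := by rw [← mul_assoc, nu_nu, one_mul]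

theorem anti_anti {f g : Equiv.Perm ℝ} (hf : nu * f ∈ PLH) (hg : nu * g ∈ PLH) :
    f * g ∈ PLH := by
  have : f * g = (nu * (nu * f) * nu) * (nu * g) := by
    calc f * g = 1 * f * 1 * g := by group
      _ = (nu * nu) * f * (nu * nu) * g := by rw [nu_nu]
      _ = _ := by group
  rw [this]; exact mul_mem (nu_conj hf) hg

theorem mono_anti {f g : Equiv.Perm ℝ} (hf : f ∈ PLH) (hg : nu * g ∈ PLH) :
    nu * (f * g) ∈ PLH := by
  have : nu * (f * g) = (nu * f * nu) * (nu * g) := by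
    calc nu * (f * g) = nu * f * 1 * g := by group
      _ = nu * f * (nu * nu) * g := by rw [nu_nu]
      _ = _ := by group
  rw [this]; exact mul_mem (nu_conj hf) hg

theorem anti_mono {f g : Equiv.Perm ℝ} (hf : nu * f ∈ PLH) (hg : g ∈ PLH) :
    nu * (f * g) ∈ PLH := by
  rw [← mul_assoc]; exact mul_mem hf hg

theorem anti_inv {f : Equiv.Perm ℝ} (hf : nu * f ∈ PLH) : nu * f⁻¹ ∈ PLH := by
  have h := nu_conj (inv_mem hf)
  have : nu * (nu * f)⁻¹ * nu = nu * f⁻¹ := by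
    rw [mul_inv_rev, nu_inv]
    calc nu * (f⁻¹ * nu) * nu = nu * f⁻¹ * (nu * nu) := by group
      _ = nu * f⁻¹ := by rw [nu_nu, mul_one]
  rwa [this] at h

theorem push_mono {w : Equiv.Perm ℝ} {c : ℝ} (hgt : ∀ t, c < t → t < w t) {b : ℝ} (hb : c < b)
    (m : ℕ) : c < (w ^ m) b := by
  induction m with
  | zero => simpa using hb
  | succ m ih =>
    rw [pow_succ', Equiv.Perm.mul_apply]
    exact ih.trans (hgt _ ih)

theorem push_le {w : Equiv.Perm ℝ} {c : ℝ} (hgt : ∀ t, c < t → t < w t) {b : ℝ} (hb : c < b)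
    {m n : ℕ} (hmn : m ≤ n) : (w ^ m) b ≤ (w ^ n) b := by
  have : Monotone (fun m : ℕ => (w ^ m) b) := monotone_nat_of_le_succ fun m => by
    show (w ^ m) b ≤ (w ^ (m + 1)) b
    rw [pow_succ' w m, Equiv.Perm.mul_apply]
    exact (hgt _ (push_mono hgt hb m)).le
  exact this hmn

theorem push {w : Equiv.Perm ℝ} (hw : StrictMono w) {c : ℝ} (hgt : ∀ t, c < t → t < w t) {b : ℝ}
    (hb : c < b) (R : ℝ) : ∃ m : ℕ, R < (w ^ m) b := by
  by_contra hcon
  push Not at hcon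
  have hbdd : BddAbove (Set.range fun m : ℕ => (w ^ m) b) := ⟨R, by rintro _ ⟨m, rfl⟩; exact hcon m⟩
  obtain ⟨s, hs⟩ : ∃ s, s = sSup (Set.range fun m : ℕ => (w ^ m) b) := ⟨_, rfl⟩
  have h1 : ∀ m : ℕ, (w ^ m) b ≤ s := fun m => by rw [hs]; exact le_csSup hbdd ⟨m, rfl⟩
  have h2 : c < s := hb.trans_le (by simpa using h1 0)
  have h3 : w⁻¹ s < s := inv_lt_of hw (hgt s h2)
  have h3' : w⁻¹ s < sSup (Set.range fun m : ℕ => (w ^ m) b) := by rw [← hs]; exact h3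
  obtain ⟨_, ⟨m, rfl⟩, hm⟩ := exists_lt_of_lt_csSup (Set.range_nonempty _) h3'
  have h4 := hw hm
  rw [inv_right] at h4
  have h5 := h1 (m + 1)
  rw [pow_succ', Equiv.Perm.mul_apply] at h5
  simp only at h4
  linarith

theorem dR_one' (x : ℝ) : dR (1 : Equiv.Perm ℝ) x = 0 := dR_one_10658 x

theorem dR_inv' {a : Equiv.Perm ℝ} (ha : a ∈ PLH) {c : ℝ} (h : a c = c) :
    dR (a⁻¹ : Equiv.Perm ℝ) c = - dR a c := by
  have hi : a⁻¹ c = c := by rw [Equiv.Perm.inv_eq_iff_eq, h]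
  have h1 := dR_mul ha (PLH.inv_mem ha) c
  rw [mul_inv_cancel, dR_one_10658, hi] at h1
  omega

theorem dL_inv' {a : Equiv.Perm ℝ} (ha : a ∈ PLH) {c : ℝ} (h : a c = c) :
    dL (a⁻¹ : Equiv.Perm ℝ) c = - dL a c := by
  have hi : a⁻¹ c = c := by rw [Equiv.Perm.inv_eq_iff_eq, h]
  have h1 := dL_mul ha (PLH.inv_mem ha) c
  rw [mul_inv_cancel, dL_one_10658, hi] at h1
  omega

theorem comm_R {f g : Equiv.Perm ℝ} (hf : f ∈ PLH) (hg : g ∈ PLH) {c : ℝ} (h1 : f c = c)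
    (h2 : g c = c) : ∃ η > 0, ∀ t, c ≤ t → t ≤ c + η → (f⁻¹ * g * f * g⁻¹) t = t := by
  have hi1 : f⁻¹ c = c := by rw [Equiv.Perm.inv_eq_iff_eq, h1]
  have hi2 : g⁻¹ c = c := by rw [Equiv.Perm.inv_eq_iff_eq, h2]
  have m1 := PLH.inv_mem hf
  have m2 := PLH.inv_mem hg
  have q : f⁻¹ * g * f * g⁻¹ ∈ PLH := mul_mem (mul_mem (mul_mem m1 hg) hf) m2
  have hd : dR (f⁻¹ * g * f * g⁻¹ : Equiv.Perm ℝ) c = 0 := by
    rw [dR_mul (mul_mem (mul_mem m1 hg) hf) m2, hi2, dR_mul (mul_mem m1 hg) hf, h1,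
      dR_mul m1 hg, h2, dR_inv' hf h1, dR_inv' hg h2]
    ring
  obtain ⟨k, d, hR⟩ := (q.2 c).1
  have hk : k = 0 := by rw [← dR_eq hR]; exact hd
  subst hk
  obtain ⟨-, ε, hε, hR⟩ := hR
  have h0 := hR c le_rfl (by linarith)
  have hc : (f⁻¹ * g * f * g⁻¹) c = c := by
    simp only [Equiv.Perm.mul_apply]; rw [hi2, h1, h2, hi1]
  rw [hc, zpow_zero] at h0
  refine ⟨ε / 2, by positivity, fun t ht ht' => ?_⟩
  rw [hR t ht (by linarith), zpow_zero]
  linarith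

theorem comm_L {f g : Equiv.Perm ℝ} (hf : f ∈ PLH) (hg : g ∈ PLH) {c : ℝ} (h1 : f c = c)
    (h2 : g c = c) : ∃ η > 0, ∀ t, c - η ≤ t → t ≤ c → (f⁻¹ * g * f * g⁻¹) t = t := by
  have hi1 : f⁻¹ c = c := by rw [Equiv.Perm.inv_eq_iff_eq, h1]
  have hi2 : g⁻¹ c = c := by rw [Equiv.Perm.inv_eq_iff_eq, h2]
  have m1 := PLH.inv_mem hf
  have m2 := PLH.inv_mem hg
  have q : f⁻¹ * g * f * g⁻¹ ∈ PLH := mul_mem (mul_mem (mul_mem m1 hg) hf) m2
  have hd : dL (f⁻¹ * g * f * g⁻¹ : Equiv.Perm ℝ) c = 0 := by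
    rw [dL_mul (mul_mem (mul_mem m1 hg) hf) m2, hi2, dL_mul (mul_mem m1 hg) hf, h1,
      dL_mul m1 hg, h2, dL_inv' hf h1, dL_inv' hg h2]
    ring
  obtain ⟨k, d, hR⟩ := (q.2 c).2.1
  have hk : k = 0 := by rw [← dL_eq hR]; exact hd
  subst hk
  obtain ⟨-, ε, hε, hR⟩ := hR
  have h0 := hR c (by linarith) le_rfl
  have hc : (f⁻¹ * g * f * g⁻¹) c = c := by
    simp only [Equiv.Perm.mul_apply]; rw [hi2, h1, h2, hi1]
  rw [hc, zpow_zero] at h0
  refine ⟨ε / 2, by positivity, fun t ht ht' => ?_⟩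
  rw [hR t (by linarith) ht', zpow_zero]
  linarith

/-- elements of `H` that are trivial just outside `[a, c]` and near infinity -/
structure Dd (H : Subgroup (Equiv.Perm ℝ)) (a c : ℝ) (f : Equiv.Perm ℝ) : Prop where
  mem : f ∈ H
  mono : f ∈ PLH
  near : ∃ η > 0, ∀ t, (c ≤ t ∧ t ≤ c + η) ∨ (a - η ≤ t ∧ t ≤ a) → f t = t
  far : ∃ R : ℝ, ∀ t, R ≤ |t| → f t = t

/-- the configuration -/
structure Cfg (H : Subgroup (Equiv.Perm ℝ)) (x y A B : Equiv.Perm ℝ) (a δ : ℝ) : Prop where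
  da : Dy a
  dd : Dy δ
  pos : 0 < δ
  le : H ≤ Gr
  hx : x ∈ H
  hy : y ∈ H
  xm : x ∈ PLH
  ym : nu * y ∈ PLH
  yI : Inf y 1
  hA : A ∈ Sup a (a + 2 * δ)
  hB : B ∈ Sup a (a + 2 * δ)
  gen : ∀ h ∈ Sup a (a + 2 * δ), h ∈ Subgroup.closure {A, B}
  y2 : ∀ t, a ≤ t → t ≤ a + 2 * δ → y t = a + (a + 2 * δ) - t
  y3 : ∀ t, a ≤ t → t ≤ a + 2 * δ → x (y (x t)) = a + (a + 2 * δ) - A t
  y4 : ∀ t, a ≤ t → t ≤ a + 2 * δ → x (x (y (x (x t)))) = a + (a + 2 * δ) - B t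
  y5 : ∀ t, a ≤ t → t ≤ a + 2 * δ → x (x (x (y (x (x (x t)))))) = a + (a + 3 * δ) - t
  y6 : ∀ t, a + 2 * δ < t → t < y (y t)

variable {H : Subgroup (Equiv.Perm ℝ)} {x y A B : Equiv.Perm ℝ} {a δ : ℝ}

theorem Cfg.lift (C : Cfg H x y A B a δ) {ρ : Equiv.Perm ℝ} (hρ : ρ ∈ Sup a (a + 2 * δ)) :
    ∃ f ∈ H, f ∈ PLH ∧ ∀ t, a ≤ t → t ≤ a + 2 * δ → f t = ρ t := by
  have h := C.gen ρ hρ
  have key : ρ ∈ Sup a (a + 2 * δ) ∧
      ∃ f ∈ H, f ∈ PLH ∧ ∀ t, a ≤ t → t ≤ a + 2 * δ → f t = ρ t := by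
    clear hρ
    induction h using Subgroup.closure_induction with
    | mem z hz =>
      rcases hz with rfl | hz
      · refine ⟨C.hA, y * (x * y * x), mul_mem C.hy (mul_mem (mul_mem C.hx C.hy) C.hx),
          anti_anti C.ym (anti_mono (mono_anti C.xm C.ym) C.xm), fun t h1 h2 => ?_⟩
        have h3 := Sup_range C.hA h1 h2
        show y (x (y (x t))) = z t
        rw [C.y3 t h1 h2, C.y2 _ (by linarith) (by linarith)]
        ring
      · rw [Set.mem_singleton_iff] at hz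
        subst hz
        refine ⟨C.hB, y * (x * x * y * x * x), mul_mem C.hy (mul_mem (mul_mem (mul_mem
          (mul_mem C.hx C.hx) C.hy) C.hx) C.hx),
          anti_anti C.ym (anti_mono (anti_mono (mono_anti (mul_mem C.xm C.xm) C.ym) C.xm) C.xm),
          fun t h1 h2 => ?_⟩
        have h3 := Sup_range C.hB h1 h2
        show y (x (x (y (x (x t))))) = z t
        rw [C.y4 t h1 h2, C.y2 _ (by linarith) (by linarith)]
        ring
    | one => exact ⟨one_mem _, 1, one_mem _, one_mem _, fun t _ _ => rfl⟩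
    | mul u v _ _ hu hv =>
      obtain ⟨mu, f, f1, f2, f3⟩ := hu
      obtain ⟨mv, g, g1, g2, g3⟩ := hv
      refine ⟨mul_mem mu mv, f * g, mul_mem f1 g1, mul_mem f2 g2, fun t h1 h2 => ?_⟩
      have h3 := Sup_range mv h1 h2
      rw [Equiv.Perm.mul_apply, g3 t h1 h2, f3 _ h3.1 h3.2]; rfl
    | inv u _ hu =>
      obtain ⟨mu, f, f1, f2, f3⟩ := hu
      refine ⟨inv_mem mu, f⁻¹, inv_mem f1, inv_mem f2, fun t h1 h2 => ?_⟩
      have h3 := Sup_range (inv_mem mu) h1 h2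
      rw [Equiv.Perm.inv_eq_iff_eq, f3 _ h3.1 h3.2, inv_right]
  exact key.2

theorem Cfg.lift_fix (C : Cfg H x y A B a δ) {ρ f : Equiv.Perm ℝ} (hρ : ρ ∈ Sup a (a + 2 * δ))
    (hf : ∀ t, a ≤ t → t ≤ a + 2 * δ → f t = ρ t) :
    f a = a ∧ f (a + 2 * δ) = a + 2 * δ := by
  have := C.pos
  rw [hf a le_rfl (by linarith), hf (a + 2 * δ) (by linarith) le_rfl]
  exact ⟨hρ.2 _ (Or.inl le_rfl), hρ.2 _ (Or.inr le_rfl)⟩

theorem Cfg.comm_lift (C : Cfg H x y A B a δ) {ρ : Equiv.Perm ℝ} {ε : ℝ} (hε : 0 < ε)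
    (hρ : ρ ∈ Sup (a + ε) (a + 2 * δ - ε)) :
    ∃ f, Dd H a (a + 2 * δ) f ∧ ∀ t, a ≤ t → t ≤ a + 2 * δ → f t = ρ t := by
  have d2 : Dy (2 : ℝ) := by exact_mod_cast Dy.int 2
  have dc : Dy (a + 2 * δ) := C.da.add (d2.mul C.dd)
  obtain ⟨u, hu, v, hv, e⟩ := comm_Sup C.da dc hε hρ
  obtain ⟨f, f1, f2, f3⟩ := C.lift hu
  obtain ⟨g, g1, g2, g3⟩ := C.lift hv
  obtain ⟨fa, fc⟩ := C.lift_fix hu f3
  obtain ⟨ga, gc⟩ := C.lift_fix hv g3
  obtain ⟨η1, p1, h1⟩ := comm_R f2 g2 fc gc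
  obtain ⟨η2, p2, h2⟩ := comm_L f2 g2 fa ga
  have q1 : f⁻¹ * g * f * g⁻¹ ∈ H := mul_mem (mul_mem (mul_mem (inv_mem f1) g1) f1) (inv_mem g1)
  refine ⟨f⁻¹ * g * f * g⁻¹, ⟨q1, mul_mem (mul_mem (mul_mem (inv_mem f2) g2) f2) (inv_mem g2),
    ⟨min η1 η2, lt_min p1 p2, fun t ht => ?_⟩, ?_⟩, fun t h3 h4 => ?_⟩
  · rcases ht with ⟨h3, h4⟩ | ⟨h3, h4⟩
    · exact h1 t h3 (h4.trans (by have := min_le_left η1 η2; linarith))
    · exact h2 t (le_trans (by have := min_le_right η1 η2; linarith) h3) h4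
  · obtain ⟨k, hk⟩ := (C.le f1).2
    obtain ⟨l, hl⟩ := (C.le g1).2
    have h := ((hk.inv.mul hl).mul hk).mul hl.inv
    rw [show -k + l + k + -l = 0 by ring] at h
    obtain ⟨M, hM⟩ := h
    exact ⟨M, fun t ht => by rw [hM t ht]; simp⟩
  · rw [e]
    have hvi := Sup_range (inv_mem hv) h3 h4
    have e1 : g⁻¹ t = v⁻¹ t := by
      rw [Equiv.Perm.inv_eq_iff_eq, g3 _ hvi.1 hvi.2, inv_right]
    have hu1 := Sup_range hu hvi.1 hvi.2
    have hv1 := Sup_range hv hu1.1 hu1.2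
    have hu2 := Sup_range (inv_mem hu) hv1.1 hv1.2
    show f⁻¹ (g (f (g⁻¹ t))) = u⁻¹ (v (u (v⁻¹ t)))
    rw [e1, f3 _ hvi.1 hvi.2, g3 _ hu1.1 hu1.2, Equiv.Perm.inv_eq_iff_eq, f3 _ hu2.1 hu2.2,
      inv_right]

theorem Cfg.double (C : Cfg H x y A B a δ) {f g ρ τ : Equiv.Perm ℝ}
    (hf : Dd H a (a + 2 * δ) f) (hg : Dd H a (a + 2 * δ) g)
    (hρ : ρ ∈ Sup a (a + 2 * δ)) (hτ : τ ∈ Sup a (a + 2 * δ))
    (r : ∀ t, a ≤ t → t ≤ a + 2 * δ → f t = ρ t)
    (r' : ∀ t, a ≤ t → t ≤ a + 2 * δ → g t = τ t) : ρ * τ * ρ⁻¹ * τ⁻¹ ∈ H := by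
  obtain ⟨c, hc⟩ : ∃ c, c = a + 2 * δ := ⟨_, rfl⟩
  have hac : a < c := by rw [hc]; linarith [C.pos]
  have y2 := C.y2
  have y6 := C.y6
  rw [← hc] at hf hg hρ hτ r r' y2 y6
  have ya := anti C.ym
  have yac : y a = c := by rw [y2 a le_rfl hac.le]; ring
  obtain ⟨η, hη, hgn⟩ := hg.near
  obtain ⟨R, hR⟩ := hf.far
  obtain ⟨w, hw⟩ : ∃ w, w = y * y := ⟨_, rfl⟩
  have wH : w ∈ H := by rw [hw]; exact mul_mem C.hy C.hy
  have wm : w ∈ PLH := by rw [hw]; exact anti_anti C.ym C.ym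
  have wgt : ∀ t, c < t → t < w t := fun t ht => by rw [hw]; exact y6 t ht
  have wid : ∀ t, a ≤ t → t ≤ c → w t = t := by
    intro t h1 h2
    rw [hw, Equiv.Perm.mul_apply, y2 t h1 h2, y2 _ (by linarith) (by linarith)]
    ring
  have h1 : c < c + η := by linarith
  have h2 : c < y (a - η) := by
    rw [← yac]; exact ya (by linarith)
  obtain ⟨m1, hm1⟩ := push wm.1 wgt h1 R
  obtain ⟨m2, hm2⟩ := push wm.1 wgt h2 (y (-R))
  obtain ⟨m, hm⟩ : ∃ m, m = max m1 m2 := ⟨_, rfl⟩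
  obtain ⟨W, hW⟩ : ∃ W, W = w ^ m := ⟨_, rfl⟩
  have WH : W ∈ H := by rw [hW]; exact pow_mem wH m
  have Wm : W ∈ PLH := by rw [hW]; exact pow_mem wm m
  have Wid : ∀ t, a ≤ t → t ≤ c → W t = t := by
    intro t h1 h2
    rw [hW]
    clear hW hm
    induction m with
    | zero => simp
    | succ m ih => rw [pow_succ', Equiv.Perm.mul_apply, ih, wid t h1 h2]
  have hR1 : R < W (c + η) := by
    rw [hW]
    exact hm1.trans_le (push_le wgt h1 (by rw [hm]; exact le_max_left _ _))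
  have hL1 : W (a - η) < -R := by
    have h3 : y (-R) < (w ^ m) (y (a - η)) :=
      hm2.trans_le (push_le wgt h2 (by rw [hm]; exact le_max_right _ _))
    have h4 : (w ^ m) (y (a - η)) = y (W (a - η)) := by
      have : w ^ m * y = y * w ^ m := by
        have : Commute w y := by
          rw [hw]; exact (Commute.refl y).mul_left (Commute.refl y)
        exact (this.pow_left m).eq
      rw [hW, ← Equiv.Perm.mul_apply, this]; rfl
    rw [h4] at h3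
    exact ya.lt_iff_gt.1 h3
  have hη0 : a - η < a := by linarith
  have Wc : W c = c := Wid c hac.le le_rfl
  have Wa : W a = a := Wid a le_rfl hac.le
  have cR1 : c < W (c + η) := by
    have := Wm.1 h1; rwa [Wc] at this
  have L1a : W (a - η) < a := by
    have := Wm.1 hη0; rwa [Wa] at this
  obtain ⟨R1, eR1⟩ : ∃ R1, R1 = W (c + η) := ⟨_, rfl⟩
  obtain ⟨L1, eL1⟩ : ∃ L1, L1 = W (a - η) := ⟨_, rfl⟩
  obtain ⟨k, hk⟩ : ∃ k, k = W * g * W⁻¹ := ⟨_, rfl⟩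
  have kH : k ∈ H := by rw [hk]; exact mul_mem (mul_mem WH hg.mem) (inv_mem WH)
  have km : k ∈ PLH := by rw [hk]; exact mul_mem (mul_mem Wm hg.mono) (inv_mem Wm)
  have Wim : Monotone (W⁻¹ : Equiv.Perm ℝ) := (PLH.inv_mem Wm).1.monotone
  have Wic : W⁻¹ c = c := by rw [Equiv.Perm.inv_eq_iff_eq, Wc]
  have Wia : W⁻¹ a = a := by rw [Equiv.Perm.inv_eq_iff_eq, Wa]
  have kR : ∀ t, c ≤ t → t ≤ R1 → k t = t := by
    intro t h3 h4
    have h5 := Wim h3
    have h6 := Wim h4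
    rw [Wic] at h5
    rw [eR1, inv_left] at h6
    rw [hk, Equiv.Perm.mul_apply, Equiv.Perm.mul_apply, hgn _ (Or.inl ⟨h5, h6⟩), inv_right]
  have kL : ∀ t, L1 ≤ t → t ≤ a → k t = t := by
    intro t h3 h4
    have h5 := Wim h3
    have h6 := Wim h4
    rw [Wia] at h6
    rw [eL1, inv_left] at h5
    rw [hk, Equiv.Perm.mul_apply, Equiv.Perm.mul_apply, hgn _ (Or.inr ⟨h5, h6⟩), inv_right]
  have kM : ∀ t, a ≤ t → t ≤ c → k t = τ t := by
    intro t h3 h4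
    have h5 : W⁻¹ t = t := by rw [Equiv.Perm.inv_eq_iff_eq, Wid t h3 h4]
    have h6 := Sup_range hτ h3 h4
    rw [hk, Equiv.Perm.mul_apply, Equiv.Perm.mul_apply, h5, r' t h3 h4, Wid _ h6.1 h6.2]
  rw [← eR1] at hR1 cR1
  rw [← eL1] at hL1 L1a
  have fc : f c = c := by rw [r c hac.le le_rfl, hρ.2 c (Or.inr le_rfl)]
  have fa : f a = a := by rw [r a le_rfl hac.le, hρ.2 a (Or.inl le_rfl)]
  have kc : k c = c := kR c le_rfl cR1.le
  have ka : k a = a := kL a L1a.le le_rfl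
  have fR : ∀ t, R1 ≤ t → f t = t := fun t ht => hR t (by
    have := le_abs_self t; linarith)
  have fL : ∀ t, t ≤ L1 → f t = t := fun t ht => hR t (by
    have := neg_abs_le t; linarith)
  have fm := hf.mono.1.monotone
  have kmm := km.1.monotone
  have commR : ∀ t, c ≤ t → f (k t) = k (f t) := by
    intro t ht
    rcases le_total t R1 with h | h
    · have h3 := fm ht
      have h4 := fm h
      rw [fc] at h3
      rw [fR R1 le_rfl] at h4
      rw [kR t ht h, kR _ h3 h4]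
    · have h3 := kmm h
      rw [kR R1 cR1.le le_rfl] at h3
      rw [fR t h, fR _ h3]
  have commL : ∀ t, t ≤ a → f (k t) = k (f t) := by
    intro t ht
    rcases le_total L1 t with h | h
    · have h3 := fm ht
      have h4 := fm h
      rw [fa] at h3
      rw [fL L1 le_rfl] at h4
      rw [kL t h ht, kL _ h4 h3]
    · have h3 := kmm h
      rw [kL L1 le_rfl L1a.le] at h3
      rw [fL t h, fL _ h3]
  have fim : Monotone (f⁻¹ : Equiv.Perm ℝ) := (PLH.inv_mem hf.mono).1.monotone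
  have kim : Monotone (k⁻¹ : Equiv.Perm ℝ) := (PLH.inv_mem km).1.monotone
  have fic : f⁻¹ c = c := by rw [Equiv.Perm.inv_eq_iff_eq, fc]
  have fia : f⁻¹ a = a := by rw [Equiv.Perm.inv_eq_iff_eq, fa]
  have kic : k⁻¹ c = c := by rw [Equiv.Perm.inv_eq_iff_eq, kc]
  have kia : k⁻¹ a = a := by rw [Equiv.Perm.inv_eq_iff_eq, ka]
  have out : ∀ t, (t ≤ a ∨ c ≤ t) → (f * k * f⁻¹ * k⁻¹) t = t := by
    intro t ht
    show f (k (f⁻¹ (k⁻¹ t))) = t
    have : f (k (f⁻¹ (k⁻¹ t))) = k (f (f⁻¹ (k⁻¹ t))) := by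
      rcases ht with ht | ht
      · apply commL
        have h3 := fim (kim ht)
        rwa [kia, fia] at h3
      · apply commR
        have h3 := fim (kim ht)
        rwa [kic, fic] at h3
    rw [this, inv_right, inv_right]
  have heq : f * k * f⁻¹ * k⁻¹ = ρ * τ * ρ⁻¹ * τ⁻¹ := by
    ext t
    have hin : ρ * τ * ρ⁻¹ * τ⁻¹ ∈ Sup a c :=
      mul_mem (mul_mem (mul_mem hρ hτ) (inv_mem hρ)) (inv_mem hτ)
    rcases le_total t a with h | h
    · rw [out t (Or.inl h), hin.2 t (Or.inl h)]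
    rcases le_total c t with h' | h'
    · rw [out t (Or.inr h'), hin.2 t (Or.inr h')]
    have s1 := Sup_range (inv_mem hτ) h h'
    have e1 : k⁻¹ t = τ⁻¹ t := by
      rw [Equiv.Perm.inv_eq_iff_eq, kM _ s1.1 s1.2, inv_right]
    have s2 := Sup_range (inv_mem hρ) s1.1 s1.2
    have e2 : f⁻¹ (τ⁻¹ t) = ρ⁻¹ (τ⁻¹ t) := by
      rw [Equiv.Perm.inv_eq_iff_eq, r _ s2.1 s2.2, inv_right]
    have s3 := Sup_range hτ s2.1 s2.2
    show f (k (f⁻¹ (k⁻¹ t))) = ρ (τ (ρ⁻¹ (τ⁻¹ t)))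
    rw [e1, e2, kM _ s2.1 s2.2, r _ s3.1 s3.2]
  rw [← heq]
  exact mul_mem (mul_mem (mul_mem hf.mem kH) (inv_mem hf.mem)) (inv_mem kH)

/-- `H` contains the elements compactly supported in the open interval -/
def Good (H : Subgroup (Equiv.Perm ℝ)) (u v : ℝ) : Prop :=
  ∀ f : Equiv.Perm ℝ, (∃ u' v', u < u' ∧ v' < v ∧ f ∈ Sup u' v') → f ∈ H

theorem Cfg.good (C : Cfg H x y A B a δ) : Good H a (a + 2 * δ) := by
  rintro f ⟨u', v', h1, h2, hf⟩
  have d2 : Dy (2 : ℝ) := by exact_mod_cast Dy.int 2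
  have dc : Dy (a + 2 * δ) := C.da.add (d2.mul C.dd)
  have h3 : 0 < min (u' - a) (a + 2 * δ - v') := lt_min (by linarith) (by linarith)
  obtain ⟨ε, dε, h4, h5⟩ := Dy.exists_between h3
  have h6 := h5.trans_le (min_le_left _ _)
  have h7 := h5.trans_le (min_le_right _ _)
  have h8 : 0 < min (u' - (a + ε)) (a + 2 * δ - ε - v') := lt_min (by linarith) (by linarith)
  have hf' : f ∈ Sup ((a + ε) + min (u' - (a + ε)) (a + 2 * δ - ε - v'))
      ((a + 2 * δ - ε) - min (u' - (a + ε)) (a + 2 * δ - ε - v')) :=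
    Sup.mono (by have := min_le_left (u' - (a + ε)) (a + 2 * δ - ε - v'); linarith)
      (by have := min_le_right (u' - (a + ε)) (a + 2 * δ - ε - v'); linarith) hf
  obtain ⟨u, hu, v, hv, e⟩ := comm_Sup (C.da.add dε) (dc.sub dε) h8 hf'
  obtain ⟨p, hp, hp'⟩ := C.comm_lift h4 (inv_mem hu)
  obtain ⟨q, hq, hq'⟩ := C.comm_lift h4 hv
  have := C.double hp hq (Sup.mono (by linarith) (by linarith) (inv_mem hu))
    (Sup.mono (by linarith) (by linarith) hv) hp' hq'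
  rw [inv_inv] at this
  rw [e]; exact this

theorem Good.conj {u v : ℝ} (hG : Good H u v) {h : Equiv.Perm ℝ} (hh : h ∈ H) (hm : h ∈ PLH) :
    Good H (h u) (h v) := by
  rintro f ⟨u', v', h1, h2, hf⟩
  have h3 : h⁻¹ * f * h ∈ H := by
    apply hG
    refine ⟨h⁻¹ u', h⁻¹ v', lt_inv_of hm.1 h1, inv_lt_of hm.1 h2,
      mul_mem (mul_mem (inv_mem hm) hf.1) hm, fun x hx => ?_⟩
    have : h x ≤ u' ∨ v' ≤ h x := by
      rcases hx with hx | hx
      · left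
        have := hm.1.monotone hx
        rwa [inv_right] at this
      · right
        have := hm.1.monotone hx
        rwa [inv_right] at this
    rw [Equiv.Perm.mul_apply, Equiv.Perm.mul_apply, hf.2 _ this, inv_left]
  have h4 : f = h * (h⁻¹ * f * h) * h⁻¹ := by group
  rw [h4]
  exact mul_mem (mul_mem hh h3) (inv_mem hh)

/-- the translates of the interval cover the line -/
theorem Cfg.cover (C : Cfg H x y A B a δ) (t : ℝ) :
    ∃ h ∈ H, h ∈ PLH ∧ h a < t ∧ t < h (a + 2 * δ) := by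
  obtain ⟨c, hc⟩ : ∃ c, c = a + 2 * δ := ⟨_, rfl⟩
  have hpos := C.pos
  have hac : a < c := by rw [hc]; linarith
  have y2 := C.y2
  have y5 := C.y5
  have y6 := C.y6
  rw [← hc] at y2 y5 y6 ⊢
  have ya := anti C.ym
  have yac : y a = c := by rw [y2 a le_rfl hac.le]; ring
  have yca : y c = a := by rw [y2 c hac.le le_rfl]; ring
  -- the middle part
  have step1 : ∀ t, a < t → t < a + 3 * δ → ∃ h ∈ H, h ∈ PLH ∧ h a < t ∧ t < h c := by
    intro t h1 h2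
    rcases lt_or_ge t c with h3 | h3
    · exact ⟨1, one_mem _, one_mem _, h1, h3⟩
    · refine ⟨x * x * x * y * x * x * x * y, ?_, ?_, ?_, ?_⟩
      · exact mul_mem (mul_mem (mul_mem (mul_mem (mul_mem (mul_mem (mul_mem C.hx C.hx) C.hx) C.hy)
          C.hx) C.hx) C.hx) C.hy
      · exact anti_anti (anti_mono (anti_mono (anti_mono (mono_anti (mul_mem (mul_mem C.xm C.xm)
          C.xm) C.ym) C.xm) C.xm) C.xm) C.ym
      · show x (x (x (y (x (x (x (y a))))))) < t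
        rw [yac, y5 c hac.le le_rfl]; linarith
      · show t < x (x (x (y (x (x (x (y c)))))))
        rw [yca, y5 a le_rfl hac.le]; linarith
  obtain ⟨w, hw⟩ : ∃ w, w = y * y := ⟨_, rfl⟩
  have wH : w ∈ H := by rw [hw]; exact mul_mem C.hy C.hy
  have wm : w ∈ PLH := by rw [hw]; exact anti_anti C.ym C.ym
  have wgt : ∀ t, c < t → t < w t := fun t ht => by rw [hw]; exact y6 t ht
  have wc : w c = c := by rw [hw, Equiv.Perm.mul_apply, yca, yac]
  have step2 : ∀ t, a < t → ∃ h ∈ H, h ∈ PLH ∧ h a < t ∧ t < h c := by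
    intro t h1
    rcases lt_or_ge t (a + 3 * δ) with h2 | h2
    · exact step1 t h1 h2
    · have h3 : c < a + 3 * δ := by rw [hc]; linarith
      obtain ⟨m, hm⟩ := push wm.1 wgt h3 t
      have Wm : w ^ m ∈ PLH := pow_mem wm m
      have Wc : (w ^ m) c = c := by
        clear hm Wm
        induction m with
        | zero => simp
        | succ m ih => rw [pow_succ', Equiv.Perm.mul_apply, ih, wc]
      have h4 : (w ^ m)⁻¹ t < a + 3 * δ := inv_lt_of Wm.1 hm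
      have h5 : c < (w ^ m)⁻¹ t := lt_inv_of Wm.1 (by rw [Wc]; linarith)
      obtain ⟨h, k1, k2, k3, k4⟩ := step1 _ (hac.trans h5) h4
      refine ⟨w ^ m * h, mul_mem (pow_mem wH m) k1, mul_mem Wm k2, ?_, ?_⟩
      · have := Wm.1 k3
        rwa [inv_right] at this
      · have := Wm.1 k4
        rwa [inv_right] at this
  rcases lt_or_ge a t with h1 | h1
  · exact step2 t h1
  · have h2 : c ≤ y t := by rw [← yac]; exact ya.antitone h1
    obtain ⟨h, k1, k2, k3, k4⟩ := step2 (y t) (hac.trans_le h2)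
    have hi := anti (anti_inv C.ym)
    refine ⟨y⁻¹ * h * y, mul_mem (mul_mem (inv_mem C.hy) k1) C.hy,
      anti_anti (anti_mono (anti_inv C.ym) k2) C.ym, ?_, ?_⟩
    · show y⁻¹ (h (y a)) < t
      rw [yac]
      have := hi k4
      rwa [inv_left] at this
    · show t < y⁻¹ (h (y c))
      rw [yca]
      have := hi k3
      rwa [inv_left] at this

theorem Good.merge {u1 v1 u2 v2 : ℝ} (h1 : Good H u1 v1) (h2 : Good H u2 v2) (h3 : u2 < v1)
    (h4 : v1 < v2) (h5 : u1 < v1) : Good H u1 v2 := by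
  rintro f ⟨u', v', hu, hv, hf⟩
  rcases le_or_gt u2 u1 with h6 | h6
  · exact h2 f ⟨u', v', by linarith, hv, hf⟩
  obtain ⟨s, ds, hs1, hs2⟩ := Dy.exists_between h3
  have dfs : Dy (f s) := dy_app hf.1 ds
  have fs1 : u1 < f s := by
    rcases le_or_gt s u' with h | h
    · rw [hf.2 s (Or.inl h)]; linarith
    · have := hf.1.1 h
      rw [hf.2 u' (Or.inl le_rfl)] at this
      linarith
  have fs2 : f s < v2 := by
    rcases le_or_gt v' s with h | h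
    · rw [hf.2 s (Or.inr h)]; linarith
    · have := hf.1.1 h
      rw [hf.2 v' (Or.inr le_rfl)] at this
      linarith
  have hk : ∃ k ∈ H, k (f s) = s ∧ ∃ u'' v'', u1 < u'' ∧ v'' < v2 ∧ k ∈ Sup u'' v'' := by
    rcases lt_or_ge (f s) v1 with h | h
    · obtain ⟨k, ⟨p, q, k1, k2, k3⟩, k4⟩ := exists_move dfs ds fs1 h (by linarith : u1 < s) hs2
      exact ⟨k, h1 k ⟨p, q, k1, k2, k3⟩, k4, p, q, k1, by linarith, k3⟩
    · obtain ⟨k, ⟨p, q, k1, k2, k3⟩, k4⟩ := exists_move dfs ds (by linarith : u2 < f s) fs2 hs1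
        (by linarith : s < v2)
      exact ⟨k, h2 k ⟨p, q, k1, k2, k3⟩, k4, p, q, by linarith, k2, k3⟩
  obtain ⟨k, kH, k1, u'', v'', k2, k3, k4⟩ := hk
  obtain ⟨F, eF⟩ : ∃ F, F = k * f := ⟨_, rfl⟩
  have FP : F ∈ PLH := by rw [eF]; exact mul_mem k4.1 hf.1
  have Fs : F s = s := by rw [eF]; exact k1
  have Fl : ∀ t, t ≤ min u' u'' → F t = t := fun t ht => by
    rw [eF, Equiv.Perm.mul_apply, hf.2 t (Or.inl (ht.trans (min_le_left _ _))),
      k4.2 t (Or.inl (ht.trans (min_le_right _ _)))]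
  have Fr : ∀ t, max v' v'' ≤ t → F t = t := fun t ht => by
    rw [eF, Equiv.Perm.mul_apply, hf.2 t (Or.inr ((le_max_left _ _).trans ht)),
      k4.2 t (Or.inr ((le_max_right _ _).trans ht))]
  obtain ⟨P, hP, P1, P2⟩ := PLH_glue FP (one_mem PLH) ds (by rw [Fs]; rfl)
  obtain ⟨Q, hQ, Q1, Q2⟩ := PLH_glue (one_mem PLH) FP ds (by rw [Fs]; rfl)
  have PH : P ∈ H := by
    apply h1
    refine ⟨min u' u'', s, lt_min hu k2, hs2, hP, fun t ht => ?_⟩
    rcases le_total s t with h | h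
    · rw [P2 t h]; rfl
    · rcases ht with ht | ht
      · rw [P1 t h, Fl t ht]
      · have : t = s := le_antisymm h ht
        rw [this, P1 s le_rfl, Fs]
  have QH : Q ∈ H := by
    apply h2
    refine ⟨s, max v' v'', hs1, max_lt hv k3, hQ, fun t ht => ?_⟩
    rcases le_total t s with h | h
    · rw [Q1 t h]; rfl
    · rcases ht with ht | ht
      · have : t = s := le_antisymm ht h
        rw [this, Q2 s le_rfl, Fs]
      · rw [Q2 t h, Fr t ht]
  have hPQ : F = P * Q := by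
    ext t
    rw [Equiv.Perm.mul_apply]
    rcases le_total t s with h | h
    · rw [Q1 t h, Equiv.Perm.one_apply, P1 t h]
    · rw [Q2 t h]
      have := FP.1.monotone h
      rw [Fs] at this
      rw [P2 _ this, Equiv.Perm.one_apply]
  have : f = k⁻¹ * (P * Q) := by rw [← hPQ, eF]; group
  rw [this]
  exact mul_mem (inv_mem kH) (mul_mem PH QH)

theorem Cfg.all_Sup (C : Cfg H x y A B a δ) {R : ℝ} {f : Equiv.Perm ℝ} (hf : f ∈ Sup (-R) R) :
    f ∈ H := by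
  have hpos := C.pos
  obtain ⟨h0, a1, a2, a3, a4⟩ := C.cover (-R - 1)
  have G0 := C.good.conj a1 a2
  obtain ⟨u1, e1⟩ : ∃ u1, u1 = h0 a := ⟨_, rfl⟩
  rw [← e1] at G0 a3
  by_contra hcon
  have hbd : ∀ v, u1 < v → Good H u1 v → v ≤ R := by
    intro v _ hv
    by_contra hv'
    push Not at hv'
    exact hcon (hv f ⟨-R, R, by linarith, hv', hf⟩)
  obtain ⟨S, hS⟩ : ∃ S : Set ℝ, S = {v | u1 < v ∧ Good H u1 v} := ⟨_, rfl⟩
  have hSne : S.Nonempty := ⟨h0 (a + 2 * δ), by rw [hS]; exact ⟨by linarith, G0⟩⟩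
  have hSb : BddAbove S := ⟨R, by rw [hS]; rintro v ⟨h1, h2⟩; exact hbd v h1 h2⟩
  obtain ⟨h, b1, b2, b3, b4⟩ := C.cover (sSup S)
  have G1 := C.good.conj b1 b2
  obtain ⟨v, hv, hv'⟩ := exists_lt_of_lt_csSup hSne b3
  have hvs := le_csSup hSb hv
  rw [hS] at hv
  have G2 := hv.2.merge G1 hv' (lt_of_le_of_lt hvs b4) hv.1
  have : h (a + 2 * δ) ∈ S := by rw [hS]; exact ⟨by linarith [hv.1], G2⟩
  have := le_csSup hSb this
  linarith

theorem Cfg.top (C : Cfg H x y A B a δ) : Gr ≤ H := by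
  intro f hf
  obtain ⟨k, hk⟩ := hf.2
  have h1 : Inf ((y ^ k)⁻¹ * f : Equiv.Perm ℝ) 0 := by
    have := (C.yI.zpow k).inv.mul hk
    rwa [show -(k * 1) + k = 0 by ring] at this
  obtain ⟨M, hM⟩ := h1
  have hyG : y ∈ Gr := C.le C.hy
  have h2 : (y ^ k)⁻¹ * f ∈ Gr := mul_mem (inv_mem (zpow_mem hyG k)) hf
  have h3 : (y ^ k)⁻¹ * f ∈ PLH := by
    rcases h2.1 with h | h
    · exact h
    · exfalso
      have ha := anti h
      have e1 := hM (|M|) (by rw [abs_abs]; exact le_abs_self M)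
      have e2 := hM (|M| + 1) (by
        rw [abs_of_nonneg (by positivity)]; linarith [le_abs_self M])
      have := ha (by linarith : |M| < |M| + 1)
      rw [e1, e2] at this
      simp at this
      linarith
  have h4 : (y ^ k)⁻¹ * f ∈ Sup (-|M|) |M| := by
    refine ⟨h3, fun t ht => ?_⟩
    rw [hM t, zpow_zero, one_mul]
    have := le_abs_self M
    rcases ht with ht | ht
    · have := neg_abs_le t; linarith
    · have := le_abs_self t; linarith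
  have h5 := C.all_Sup h4
  have h6 : f = y ^ k * ((y ^ k)⁻¹ * f) := by group
  rw [h6]
  exact mul_mem (zpow_mem C.hy k) h5

end Pool.Agent.Q31.SP
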