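import Pool.Agent.Helper283.ThV.PLR

/-! Thompson's group of the dyadic piecewise linear homeomorphisms supported in `[0, 1]` is
generated by two elements. -/

set_option autoImplicit false

namespace Pool.Agent.Q31.SP

open Pool.Agent.Helper283.PL

theorem XA (u : List Bool) (e : Sup 0 1) :
    X * em (false :: false :: u) e = em (false :: u) e * X :=
  conj_10184 X e _ _ fun x h0 h1 => by
    have h := aff_mem10170 u h0 h1
    rw [show (false :: false :: u) = [false, false] ++ u from rfl, aff_append10170, X1 h.1 h.2]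
    rw [← aff_append10170]
    rfl

theorem XB (u : List Bool) (e : Sup 0 1) :
    X * em (false :: true :: u) e = em (true :: false :: u) e * X :=
  conj_10184 X e _ _ fun x h0 h1 => by
    have h := aff_mem10170 u h0 h1
    rw [show (false :: true :: u) = [false, true] ++ u from rfl, aff_append10170, X2 h.1 h.2]
    rw [← aff_append10170]
    rfl

theorem XC (u : List Bool) (e : Sup 0 1) :
    X * em (true :: u) e = em (true :: true :: u) e * X :=
  conj_10184 X e _ _ fun x h0 h1 => by
    have h := aff_mem10170 u h0 h1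
    rw [show (true :: u) = [true] ++ u from rfl, aff_append10170, X3 h.1 h.2]
    rw [← aff_append10170]
    rfl

/-- the subgroup generated by the two standard generators -/
noncomputable def S2 : Subgroup (Sup 0 1) := Subgroup.closure {X, em [true] X}

theorem X_S2 : X ∈ S2 := Subgroup.subset_closure (by simp)
theorem B_S2 : em [true] X ∈ S2 := Subgroup.subset_closure (by simp)

theorem em_cons (u : List Bool) (e : Sup 0 1) : em [true] (em u e) = em (true :: u) e := by
  rw [em_em]; rfl

theorem of_left {a b c : Sup 0 1} (ha : a ∈ S2) (hc : c ∈ S2) (h : a * b = c * a) : b ∈ S2 := by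
  have : b = a⁻¹ * (c * a) := by rw [← h]; group
  rw [this]; exact mul_mem (inv_mem ha) (mul_mem hc ha)

theorem of_right {a b c : Sup 0 1} (ha : a ∈ S2) (hb : b ∈ S2) (h : a * b = c * a) : c ∈ S2 := by
  have : c = a * b * a⁻¹ := by rw [h]; group
  rw [this]; exact mul_mem (mul_mem ha hb) (inv_mem ha)

theorem q0 : em [false] X ∈ S2 := by
  have h := pentagon
  have h1 : em [false] X = X⁻¹ * (em [true] X)⁻¹ * (X * X) := by rw [h]; group
  rw [h1]
  exact mul_mem (mul_mem (inv_mem X_S2) (inv_mem B_S2)) (mul_mem X_S2 X_S2)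

theorem q11 : em [true, true] X ∈ S2 := of_right X_S2 B_S2 (XC [] X)

theorem q10 : em [true, false] X ∈ S2 := by
  have h := congrArg (em [true]) pentagon
  simp only [map_mul, em_cons] at h
  have h1 : em [true, false] X = (em [true] X)⁻¹ * (em [true, true] X)⁻¹ *
      (em [true] X * em [true] X) := by rw [h]; group
  rw [h1]
  exact mul_mem (mul_mem (inv_mem B_S2) (inv_mem q11)) (mul_mem B_S2 B_S2)

theorem q10u (u : List Bool) : em (true :: false :: u) X ∈ S2 := by
  induction u with
  | nil => exact q10
  | cons b u ih =>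
    cases b with
    | false =>
      have h := congrArg (em [true]) (XA u X)
      simp only [map_mul, em_cons] at h
      exact of_left B_S2 ih h
    | true =>
      have h := congrArg (em [true]) (XB u X)
      simp only [map_mul, em_cons] at h
      exact of_left B_S2 (of_right X_S2 ih (XC (false :: u) X)) h

theorem q1u (u : List Bool) : em (true :: u) X ∈ S2 := by
  induction u with
  | nil => exact B_S2
  | cons b u ih =>
    cases b with
    | false => exact q10u u
    | true => exact of_right X_S2 ih (XC u X)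

theorem q0u (u : List Bool) : em (false :: u) X ∈ S2 := by
  induction u with
  | nil => exact q0
  | cons b u ih =>
    cases b with
    | false => exact of_left X_S2 ih (XA u X)
    | true => exact of_left X_S2 (q10u u) (XB u X)

theorem qw (w : List Bool) : em w X ∈ S2 := by
  rcases w with _ | ⟨b, u⟩
  · rw [em_nil10185]; exact X_S2
  · cases b with
    | false => exact q0u u
    | true => exact q1u u

theorem gen_two (h : Sup 0 1) : h ∈ S2 := by
  have h1 := gen_X h
  have h2 : Subgroup.closure (Set.range (fun w => em w X)) ≤ S2 := by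
    rw [Subgroup.closure_le]
    rintro _ ⟨w, rfl⟩
    exact qw w
  exact h2 h1

/-- the group of the dyadic piecewise linear homeomorphisms supported in a dyadic interval is
generated by two elements. -/
theorem gen_Sup {s t : ℝ} (hs : Dy s) (ht : Dy t) (hst : s < t) :
    ∃ A ∈ Sup s t, ∃ B ∈ Sup s t, ∀ h ∈ Sup s t, h ∈ Subgroup.closure {A, B} := by
  obtain ⟨P, hP, hP0, hP1⟩ := PLH_interp Dy.zero Dy.one hs ht (zero_lt_one' ℝ) hst
  refine ⟨P * (X : Equiv.Perm ℝ) * P⁻¹, conj_Sup_10186 hP hP0 hP1 X.2,
    P * (em [true] X : Equiv.Perm ℝ) * P⁻¹, conj_Sup_10186 hP hP0 hP1 (em [true] X).2,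
    fun h hh => ?_⟩
  have hP0' : P⁻¹ s = 0 := by rw [← hP0, inv_left]
  have hP1' : P⁻¹ t = 1 := by rw [← hP1, inv_left]
  have hk : P⁻¹ * h * P ∈ Sup 0 1 := by
    refine ⟨PLH.mul_mem (PLH.mul_mem (PLH.inv_mem hP) hh.1) hP, fun x hx => ?_⟩
    have hx' : P x ≤ s ∨ t ≤ P x := by
      rcases hx with hx | hx
      · left; rw [← hP0]; exact hP.1.monotone hx
      · right; rw [← hP1]; exact hP.1.monotone hx
    rw [Equiv.Perm.mul_apply, Equiv.Perm.mul_apply, hh.2 _ hx', inv_left]
  have h1 := gen_two ⟨_, hk⟩
  have h2 : ∀ k : Sup 0 1, k ∈ S2 → P * (k : Equiv.Perm ℝ) * P⁻¹ ∈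
      Subgroup.closure {P * (X : Equiv.Perm ℝ) * P⁻¹, P * (em [true] X : Equiv.Perm ℝ) * P⁻¹} := by
    intro k hk
    unfold S2 at hk
    induction hk using Subgroup.closure_induction with
    | mem x hx =>
      rcases hx with rfl | hx
      · exact Subgroup.subset_closure (by simp)
      · rw [Set.mem_singleton_iff] at hx
        subst hx
        exact Subgroup.subset_closure (by simp)
    | one => simp [one_mem]
    | mul x y _ _ hx hy =>
      have e : P * ((x * y : Sup 0 1) : Equiv.Perm ℝ) * P⁻¹ =
          (P * (x : Equiv.Perm ℝ) * P⁻¹) * (P * (y : Equiv.Perm ℝ) * P⁻¹) := by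
        rw [Subgroup.coe_mul]; group
      rw [e]; exact mul_mem hx hy
    | inv x _ hx =>
      have e : P * ((x⁻¹ : Sup 0 1) : Equiv.Perm ℝ) * P⁻¹ = (P * (x : Equiv.Perm ℝ) * P⁻¹)⁻¹ := by
        rw [Subgroup.coe_inv]; group
      rw [e]; exact inv_mem hx
  have h3 := h2 _ h1
  have e : P * (P⁻¹ * h * P) * P⁻¹ = h := by group
  simp only [e] at h3
  exact h3

end Pool.Agent.Q31.SP
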