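import Pool.Agent.Q31.SP.Gen2

/-! The group of the dyadic piecewise linear homeomorphisms of the line that agree with
`s ↦ (-2) ^ k * s` near infinity. -/

set_option autoImplicit false

namespace Pool.Agent.Q31.SP

open Pool.Agent.Helper283.PL

/-- `s ↦ -s` -/
def nu : Equiv.Perm ℝ := Equiv.neg ℝ

theorem nu_apply (x : ℝ) : nu x = -x := rfl

theorem nu_nu : nu * nu = 1 := by
  ext x; simp [nu_apply]

theorem nu_inv : nu⁻¹ = nu := by
  rw [inv_eq_iff_mul_eq_one, nu_nu]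

theorem nu_conj {f : Equiv.Perm ℝ} (hf : f ∈ PLH) : nu * f * nu ∈ PLH := by
  have key : ∀ x, (nu * f * nu) x = -f (-x) := fun x => rfl
  have hR : ∀ x k c, LG f (-x) k c → RG (nu * f * nu : Equiv.Perm ℝ) x k (-c) := by
    rintro x k c ⟨hc, ε, hε, h⟩
    refine ⟨hc.neg, ε, hε, fun y h1 h2 => ?_⟩
    rw [key, h (-y) (by linarith) (by linarith)]
    ring
  have hL : ∀ x k c, RG f (-x) k c → LG (nu * f * nu : Equiv.Perm ℝ) x k (-c) := by
    rintro x k c ⟨hc, ε, hε, h⟩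
    refine ⟨hc.neg, ε, hε, fun y h1 h2 => ?_⟩
    rw [key, h (-y) (by linarith) (by linarith)]
    ring
  refine ⟨fun x y hxy => ?_, fun x => ?_⟩
  · rw [key, key]
    have := hf.1 (neg_lt_neg hxy)
    linarith
  · obtain ⟨⟨k, c, h1⟩, ⟨k', c', h2⟩, h3⟩ := hf.2 (-x)
    refine ⟨⟨k', -c', hR x k' c' h2⟩, ⟨k, -c, hL x k c h1⟩, fun hx => ?_⟩
    obtain ⟨l, d, h4, h5⟩ := h3 (fun h => hx (by simpa using h.neg))
    exact ⟨l, -d, hR x l d h5, hL x l d h4⟩

/-- `f s = (-2) ^ k * s` near infinity -/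
def Inf (f : ℝ → ℝ) (k : ℤ) : Prop := ∃ M : ℝ, ∀ s, M ≤ |s| → f s = (-2 : ℝ) ^ k * s

theorem Inf.one : Inf (1 : Equiv.Perm ℝ) 0 := ⟨0, fun s _ => by simp⟩

theorem abs_pos_zpow (k : ℤ) : 0 < |(-2 : ℝ) ^ k| := abs_pos.2 (zpow_ne_zero k (by norm_num))

theorem Inf.mul {f g : Equiv.Perm ℝ} {k l : ℤ} (hf : Inf f k) (hg : Inf g l) :
    Inf (f * g : Equiv.Perm ℝ) (k + l) := by
  obtain ⟨M, hM⟩ := hf
  obtain ⟨N, hN⟩ := hg
  refine ⟨max N (M / |(-2 : ℝ) ^ l|), fun s hs => ?_⟩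
  have h1 := (le_max_left _ _).trans hs
  have h2 := (le_max_right _ _).trans hs
  rw [div_le_iff₀ (abs_pos_zpow l), mul_comm, ← abs_mul] at h2
  rw [Equiv.Perm.mul_apply, hN s h1, hM _ h2, zpow_add₀ (by norm_num)]
  ring

theorem Inf.inv {f : Equiv.Perm ℝ} {k : ℤ} (hf : Inf f k) : Inf (f⁻¹ : Equiv.Perm ℝ) (-k) := by
  obtain ⟨M, hM⟩ := hf
  refine ⟨M / |(-2 : ℝ) ^ (-k)|, fun s hs => ?_⟩
  rw [div_le_iff₀ (abs_pos_zpow (-k)), mul_comm, ← abs_mul] at hs
  rw [Equiv.Perm.inv_eq_iff_eq, hM _ hs, ← mul_assoc, ← zpow_add₀ (by norm_num)]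
  simp

theorem Inf.zpow {f : Equiv.Perm ℝ} {k : ℤ} (hf : Inf f k) (n : ℤ) :
    Inf (f ^ n : Equiv.Perm ℝ) (n * k) := by
  induction n using Int.induction_on with
  | zero => simpa using Inf.one
  | succ n ih =>
    have := ih.mul hf
    rw [zpow_add_one]
    have e : ((n : ℤ) + 1) * k = (n : ℤ) * k + k := by ring
    rw [e]; exact this
  | pred n ih =>
    have := ih.mul hf.inv
    rw [zpow_sub_one]
    have e : (-(n : ℤ) - 1) * k = (-(n : ℤ)) * k + -k := by ring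
    rw [e]; exact this

/-- increasing or decreasing dyadic piecewise linear homeomorphisms of the line -/
def PM : Subgroup (Equiv.Perm ℝ) where
  carrier := {f | f ∈ PLH ∨ nu * f ∈ PLH}
  mul_mem' := by
    rintro f g (hf | hf) (hg | hg)
    · exact Or.inl (mul_mem hf hg)
    · right
      have : nu * (f * g) = (nu * f * nu) * (nu * g) := by
        calc nu * (f * g) = nu * f * 1 * g := by group
          _ = nu * f * (nu * nu) * g := by rw [nu_nu]
          _ = _ := by group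
      rw [this]; exact mul_mem (nu_conj hf) hg
    · right
      rw [← mul_assoc]; exact mul_mem hf hg
    · left
      have : f * g = (nu * (nu * f) * nu) * (nu * g) := by
        calc f * g = 1 * f * 1 * g := by group
          _ = (nu * nu) * f * (nu * nu) * g := by rw [nu_nu]
          _ = _ := by group
      rw [this]; exact mul_mem (nu_conj hf) hg
  one_mem' := Or.inl (one_mem _)
  inv_mem' := by
    rintro f (hf | hf)
    · exact Or.inl (inv_mem hf)
    · right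
      have h := nu_conj (inv_mem hf)
      have : nu * (nu * f)⁻¹ * nu = nu * f⁻¹ := by
        rw [mul_inv_rev, nu_inv]
        calc nu * (f⁻¹ * nu) * nu = nu * f⁻¹ * (nu * nu) := by group
          _ = nu * f⁻¹ := by rw [nu_nu, mul_one]
      rwa [this] at h

theorem mem_PM {f : Equiv.Perm ℝ} : f ∈ PM ↔ f ∈ PLH ∨ nu * f ∈ PLH := Iff.rfl

/-- The dyadic piecewise linear homeomorphisms of the line, increasing or decreasing, that agree
with `s ↦ (-2) ^ k * s` near infinity, for some integer `k`. -/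
def Gr : Subgroup (Equiv.Perm ℝ) where
  carrier := {f | f ∈ PM ∧ ∃ k, Inf f k}
  mul_mem' := fun {f g} hf hg => ⟨mul_mem hf.1 hg.1, by
    obtain ⟨k, hk⟩ := hf.2
    obtain ⟨l, hl⟩ := hg.2
    exact ⟨k + l, hk.mul hl⟩⟩
  one_mem' := ⟨one_mem _, 0, Inf.one⟩
  inv_mem' := fun {f} hf => ⟨inv_mem hf.1, by
    obtain ⟨k, hk⟩ := hf.2
    exact ⟨-k, hk.inv⟩⟩

theorem mem_Gr {f : Equiv.Perm ℝ} : f ∈ Gr ↔ (f ∈ PLH ∨ nu * f ∈ PLH) ∧ ∃ k, Inf f k := Iff.rfl

theorem Sup_le_Gr (u v : ℝ) : Sup u v ≤ Gr := by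
  intro f hf
  refine ⟨Or.inl hf.1, 0, max |u| |v|, fun s hs => ?_⟩
  have h1 := (le_max_left _ _).trans hs
  have h2 := (le_max_right _ _).trans hs
  rw [hf.2 s, zpow_zero, one_mul]
  rcases le_total 0 s with h0 | h0
  · right
    rw [abs_of_nonneg h0] at h2
    exact (le_abs_self v).trans h2
  · left
    rw [abs_of_nonpos h0] at h1
    have := neg_abs_le u
    linarith

/-- decreasing elements -/
theorem anti {f : Equiv.Perm ℝ} (h : nu * f ∈ PLH) : StrictAnti f := fun x y hxy => by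
  have := h.1 hxy
  simp only [Equiv.Perm.mul_apply, nu_apply] at this
  linarith

theorem cont_of_anti {f : Equiv.Perm ℝ} (h : nu * f ∈ PLH) : Continuous f := by
  have h1 : Continuous (nu * f : Equiv.Perm ℝ) := h.2.cont
  have h2 : (f : ℝ → ℝ) = fun x => -((nu * f : Equiv.Perm ℝ) x) := by
    funext x; simp [nu_apply]
  rw [h2]; exact h1.neg

theorem exists_fix {f : Equiv.Perm ℝ} (h : nu * f ∈ PLH) : ∃ p, f p = p := by
  have ha := anti h
  have hc : Continuous (fun t => f t - t) := (cont_of_anti h).sub continuous_id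
  rcases lt_trichotomy (f 0) 0 with h0 | h0 | h0
  · have h1 := ha h0
    have := intermediate_value_Icc' h0.le (f := fun t => f t - t) hc.continuousOn
    obtain ⟨p, -, hp⟩ := this (show (0 : ℝ) ∈ Set.Icc (f 0 - 0) (f (f 0) - f 0) from
      ⟨by linarith, by linarith⟩)
    exact ⟨p, by simp only at hp; linarith⟩
  · exact ⟨0, h0⟩
  · have h1 := ha h0
    have := intermediate_value_Icc' h0.le (f := fun t => f t - t) hc.continuousOn
    obtain ⟨p, -, hp⟩ := this (show (0 : ℝ) ∈ Set.Icc (f (f 0) - f 0) (f 0 - 0) from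
      ⟨by linarith, by linarith⟩)
    exact ⟨p, by simp only at hp; linarith⟩

theorem closure_fix {x y : Equiv.Perm ℝ} {p : ℝ} (hx : x p = p) (hy : y p = p)
    {f : Equiv.Perm ℝ} (hf : f ∈ Subgroup.closure {x, y}) : f p = p := by
  have h1 : Subgroup.closure {x, y} ≤ MulAction.stabilizer (Equiv.Perm ℝ) p := by
    rw [Subgroup.closure_le]
    rintro g (rfl | hg)
    · exact hx
    · rw [Set.mem_singleton_iff] at hg
      subst hg; exact hy
  exact h1 hf

/-- interpolation -/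
theorem bridge {f g : Equiv.Perm ℝ} (hf : f ∈ PLH) (hg : g ∈ PLH) {p q : ℝ} (hp : Dy p)
    (hq : Dy q) (hpq : p < q) (h : f p < g q) :
    ∃ e ∈ PLH, (∀ x, x ≤ p → e x = f x) ∧ (∀ x, q ≤ x → e x = g x) := by
  obtain ⟨m, hm, h1, h2⟩ := PLH_interp hp hq ((hf.2 p).dy.2 hp) ((hg.2 q).dy.2 hq) hpq h
  obtain ⟨e1, he1, h3, h4⟩ := PLH_glue hf hm hp h1.symm
  obtain ⟨e2, he2, h5, h6⟩ := PLH_glue he1 hg hq (by rw [h4 q hpq.le, h2])
  exact ⟨e2, he2, fun x hx => by rw [h5 x (hx.trans hpq.le), h3 x hx], h6⟩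

/-- transitivity on dyadic points -/
theorem exists_move {u v p q : ℝ} (hp : Dy p) (hq : Dy q) (hup : u < p) (hpv : p < v)
    (huq : u < q) (hqv : q < v) :
    ∃ k : Equiv.Perm ℝ, (∃ u' v', u < u' ∧ v' < v ∧ k ∈ Sup u' v') ∧ k p = q := by
  obtain ⟨u', du, h1, h2⟩ := Dy.exists_between (lt_min hup huq)
  obtain ⟨v', dv, h3, h4⟩ := Dy.exists_between (max_lt hpv hqv)
  have h2p := h2.trans_le (min_le_left _ _)
  have h2q := h2.trans_le (min_le_right _ _)
  have h3p := (le_max_left _ _).trans_lt h3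
  have h3q := (le_max_right _ _).trans_lt h3
  have ht : tr (q - p) ∈ PLH := tr_mem (hq.sub hp)
  obtain ⟨e1, he1, a1, a2⟩ := bridge (one_mem PLH) ht du hp h2p (by
    rw [tr_apply, Equiv.Perm.one_apply]; linarith)
  obtain ⟨e2, he2, b1, b2⟩ := bridge he1 (one_mem PLH) hp dv h3p (by
    rw [a2 p le_rfl, tr_apply, Equiv.Perm.one_apply]; linarith)
  refine ⟨e2, ⟨u', v', h1, h4, he2, fun x hx => ?_⟩, ?_⟩
  · rcases hx with hx | hx
    · rw [b1 x (hx.trans h2p.le), a1 x hx]; rfl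
    · rw [b2 x hx]; rfl
  · rw [b1 p le_rfl, a2 p le_rfl, tr_apply]; ring

end Pool.Agent.Q31.SP
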