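import Pool.Agent.Q62.SP.Stm

/-! Job SP-17: the measure of the set where the `n`-th cell lives. -/

open MeasureTheory Set Filter Topology
open scoped ContDiff
open H459R3.NS (V pd Per cube)
open Pool.Agent.Q62.SP

namespace Pool.Agent.Q31.SP

theorem vol_meas (N : ℝ) (n : ℕ) : MeasurableSet (SS N n) := by
  have h : ∀ i : Fin 3, Measurable fun x : V => |xi N (x i)| := by
    intro i
    have h1 : Measurable fun x : V => xi N (x i) := by
      unfold xi
      exact (((measurable_fract (R := ℝ)).comp (measurable_pi_apply i)).sub_const _).const_mul _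
    exact h1.abs
  exact (measurableSet_le (h 0) measurable_const).inter (measurableSet_le (h 1) measurable_const)

theorem vol_pt (N : ℝ) (hN : 198 ≤ N) (n : ℕ) (t : ℝ) (h0 : 0 ≤ t) (h1 : t ≤ 1)
    (h : |xi N t| ≤ 66 / 2 ^ n) : 1 / 2 - 66 / (N * 2 ^ n) ≤ t ∧ t ≤ 1 / 2 + 66 / (N * 2 ^ n) := by
  have h2 : (1 : ℝ) ≤ 2 ^ n := one_le_pow₀ (by norm_num)
  have hN0 : 0 < N := by linarith
  rcases eq_or_lt_of_le h1 with he | hl
  · exfalso
    subst he
    unfold xi at h
    rw [Int.fract_one, zero_sub, mul_neg, abs_neg, abs_of_nonneg (by positivity)] at h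
    have h3 : (66 : ℝ) / 2 ^ n ≤ 66 := div_le_self (by norm_num) h2
    linarith
  · have hf : Int.fract t = t := Int.fract_eq_self.2 ⟨h0, hl⟩
    unfold xi at h
    rw [hf, abs_mul, abs_of_pos hN0] at h
    have e : (66 : ℝ) / (N * 2 ^ n) = 66 / 2 ^ n / N := by
      rw [div_div, mul_comm]
    have h4 : |t - 1 / 2| ≤ 66 / (N * 2 ^ n) := by
      rw [e, le_div_iff₀ hN0, mul_comm]
      exact h
    rw [abs_le] at h4
    constructor
    · linarith [h4.1]
    · linarith [h4.2]

theorem t_VOL : S_VOL := by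
  intro N hN n
  refine ⟨vol_meas N n, ?_⟩
  have hN0 : 0 < N := by linarith
  set δ : ℝ := 66 / (N * 2 ^ n) with hδ
  have hδ0 : 0 < δ := by positivity
  set a : V := ![1 / 2 - δ, 1 / 2 - δ, 0] with ha
  set b : V := ![1 / 2 + δ, 1 / 2 + δ, 1] with hb
  have hab : a ≤ b := by
    intro i
    fin_cases i <;> simp [ha, hb] <;> linarith
  have hsub : cube ∩ SS N n ⊆ Icc a b := by
    rintro x ⟨hx, hs⟩
    have hx0 := hx.1
    have hx1 := hx.2
    have p0 := vol_pt N hN n (x 0) (hx0 0) (hx1 0) hs.1
    have p1 := vol_pt N hN n (x 1) (hx0 1) (hx1 1) hs.2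
    constructor
    · intro i
      fin_cases i
      · simpa [ha] using p0.1
      · simpa [ha] using p1.1
      · simpa [ha] using hx0 2
    · intro i
      fin_cases i
      · simpa [hb] using p0.2
      · simpa [hb] using p1.2
      · simpa [hb] using hx1 2
  calc volume.real (cube ∩ SS N n) ≤ volume.real (Icc a b) :=
        measureReal_mono hsub (by
          rw [Real.volume_Icc_pi]
          exact ENNReal.prod_ne_top fun i _ => ENNReal.ofReal_ne_top)
    _ = ∏ i, (b i - a i) := Real.volume_Icc_pi_toReal hab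
    _ = (132 / (N * 2 ^ n)) ^ 2 := by
        rw [Fin.prod_univ_three]
        simp only [ha, hb, Matrix.cons_val_zero, Matrix.cons_val_one, Matrix.cons_val]
        rw [hδ]
        ring

end Pool.Agent.Q31.SP
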