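import Pool.Agent.Q31.SP.Grp

/-! Construction of the second generator. -/

set_option autoImplicit false

namespace Pool.Agent.Q31.SP

open Pool.Agent.Helper283.PL

/-- the reflection `t ↦ p - t` -/
def rf (p : ℝ) : Equiv.Perm ℝ := tr p * nu

theorem rf_apply (p x : ℝ) : rf p x = p - x := by
  show -x + p = p - x
  ring

theorem rf_rf (p x : ℝ) : rf p (rf p x) = x := by rw [rf_apply, rf_apply]; ring

theorem tr_neg_nu (p : ℝ) : nu * tr p = tr (-p) * nu := by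
  ext x
  simp only [Equiv.Perm.mul_apply, tr_apply, nu_apply]
  ring

theorem rf_conj {p : ℝ} (hp : Dy p) {f : Equiv.Perm ℝ} (hf : f ∈ PLH) : rf p * f * rf p ∈ PLH := by
  have h : rf p * f * rf p = tr p * (nu * f * nu) * tr (-p) := by
    ext x
    simp only [Equiv.Perm.mul_apply, tr_apply, nu_apply, rf_apply]
    rw [show p - x = -(x + -p) by ring]
    ring
  rw [h]
  exact mul_mem (mul_mem (tr_mem hp) (nu_conj hf)) (tr_mem hp.neg)

theorem nu_rf (p : ℝ) : nu * rf p = tr (-p) := by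
  ext x
  simp only [Equiv.Perm.mul_apply, tr_apply, nu_apply, rf_apply]
  ring

theorem lt_inv_of {f : Equiv.Perm ℝ} (hf : StrictMono f) {s t : ℝ} (h : f s < t) : s < f⁻¹ t := by
  rw [← hf.lt_iff_lt, inv_right]; exact h

theorem inv_lt_of {f : Equiv.Perm ℝ} (hf : StrictMono f) {s t : ℝ} (h : t < f s) : f⁻¹ t < s := by
  rw [← hf.lt_iff_lt, inv_right]; exact h

theorem dy_inv {f : Equiv.Perm ℝ} (hf : f ∈ PLH) {s : ℝ} (h : Dy s) : Dy (f⁻¹ s) :=
  ((PLH.inv_mem hf).2 s).dy.2 h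

theorem dy_app {f : Equiv.Perm ℝ} (hf : f ∈ PLH) {s : ℝ} (h : Dy s) : Dy (f s) :=
  (hf.2 s).dy.2 h

theorem exists_y {x : Equiv.Perm ℝ} (hx : x ∈ PLH) {a δ : ℝ} (ha : Dy a) (hδ : Dy δ) (h0 : 0 < δ)
    (hxa : x (a + 3 * δ) < a) {A B : Equiv.Perm ℝ} (hA : A ∈ Sup a (a + 2 * δ))
    (hB : B ∈ Sup a (a + 2 * δ)) :
    ∃ y : Equiv.Perm ℝ, nu * y ∈ PLH ∧ Inf y 1 ∧
      (∀ t, a ≤ t → t ≤ a + 2 * δ → y t = a + (a + 2 * δ) - t) ∧
      (∀ t, a ≤ t → t ≤ a + 2 * δ → x (y (x t)) = a + (a + 2 * δ) - A t) ∧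
      (∀ t, a ≤ t → t ≤ a + 2 * δ → x (x (y (x (x t)))) = a + (a + 2 * δ) - B t) ∧
      (∀ t, a ≤ t → t ≤ a + 2 * δ → x (x (x (y (x (x (x t)))))) = a + (a + 3 * δ) - t) ∧
      (∀ t, a + 2 * δ < t → t < y (y t)) := by
  have h2 : Dy (2 : ℝ) := by exact_mod_cast Dy.int 2
  have h3 : Dy (3 : ℝ) := by exact_mod_cast Dy.int 3
  obtain ⟨c, hc⟩ : ∃ c, c = a + 2 * δ := ⟨_, rfl⟩
  have dc : Dy c := by rw [hc]; exact ha.add (h2.mul hδ)
  obtain ⟨p, hp⟩ : ∃ p, p = a + c := ⟨_, rfl⟩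
  have dp : Dy p := by rw [hp]; exact ha.add dc
  have hac : a < c := by rw [hc]; linarith
  have hxm := hx.1
  -- positions
  have x1 : x c < a := (hxm (by rw [hc]; linarith : c < a + 3 * δ)).trans hxa
  rw [← hc] at hA hB ⊢
  have Am := hA.1.1
  have Bm := hB.1.1
  have Aa := hA.2 a (Or.inl le_rfl)
  have Ac := hA.2 c (Or.inr le_rfl)
  have Ba := hB.2 a (Or.inl le_rfl)
  have Bc := hB.2 c (Or.inr le_rfl)
  -- inverse of x
  have i1 : c < x⁻¹ a := lt_inv_of hxm x1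
  have xim : StrictMono (x⁻¹ : Equiv.Perm ℝ) := (PLH.inv_mem hx).1
  -- the maps K_i
  obtain ⟨X2, hX2⟩ : ∃ X2, X2 = x * x := ⟨_, rfl⟩
  obtain ⟨X3, hX3⟩ : ∃ X3, X3 = x * x * x := ⟨_, rfl⟩
  have mX2 : X2 ∈ PLH := by rw [hX2]; exact mul_mem hx hx
  have mX3 : X3 ∈ PLH := by rw [hX3]; exact mul_mem (mul_mem hx hx) hx
  have aX2 : ∀ t, X2 t = x (x t) := fun t => by rw [hX2]; rfl
  have aX3 : ∀ t, X3 t = x (x (x t)) := fun t => by rw [hX3]; rfl
  have K1 := rf_conj dp (PLH.inv_mem hx)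
  have K2 := rf_conj dp (PLH.inv_mem mX2)
  have K3 := rf_conj dp (PLH.inv_mem mX3)
  -- phi_i
  have P1 : rf p * x⁻¹ * rf p * A * x⁻¹ ∈ PLH := mul_mem (mul_mem K1 hA.1) (PLH.inv_mem hx)
  have P2 : rf p * X2⁻¹ * rf p * B * X2⁻¹ ∈ PLH := mul_mem (mul_mem K2 hB.1) (PLH.inv_mem mX2)
  have P3 : rf p * X3⁻¹ * rf p * tr (-δ) * X3⁻¹ ∈ PLH :=
    mul_mem (mul_mem K3 (tr_mem hδ.neg)) (PLH.inv_mem mX3)
  obtain ⟨φ1, e1⟩ : ∃ φ1, φ1 = rf p * x⁻¹ * rf p * A * x⁻¹ := ⟨_, rfl⟩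
  obtain ⟨φ2, e2⟩ : ∃ φ2, φ2 = rf p * X2⁻¹ * rf p * B * X2⁻¹ := ⟨_, rfl⟩
  obtain ⟨φ3, e3⟩ : ∃ φ3, φ3 = rf p * X3⁻¹ * rf p * tr (-δ) * X3⁻¹ := ⟨_, rfl⟩
  rw [← e1] at P1
  rw [← e2] at P2
  rw [← e3] at P3
  have v1 : ∀ t, φ1 (x t) = p - x⁻¹ (p - A t) := by
    intro t; rw [e1]
    simp only [Equiv.Perm.mul_apply, inv_left, rf_apply]
  have v2 : ∀ t, φ2 (X2 t) = p - X2⁻¹ (p - B t) := by
    intro t; rw [e2]
    simp only [Equiv.Perm.mul_apply, inv_left, rf_apply]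
  have v3 : ∀ t, φ3 (X3 t) = p - X3⁻¹ (p - (t - δ)) := by
    intro t; rw [e3]
    simp only [Equiv.Perm.mul_apply, inv_left, rf_apply, tr_apply]
    rfl
  -- points
  have dxa : Dy (x a) := dy_app hx ha
  have dxc : Dy (x c) := dy_app hx dc
  have d2a : Dy (X2 a) := dy_app mX2 ha
  have d2c : Dy (X2 c) := dy_app mX2 dc
  have d3a : Dy (X3 a) := dy_app mX3 ha
  have d3c : Dy (X3 c) := dy_app mX3 dc
  have o1 : x a < x c := hxm hac
  have o2 : X2 a < X2 c := mX2.1 hac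
  have o3 : X3 a < X3 c := mX3.1 hac
  have q2 : X2 c < x a := by rw [aX2]; exact hxm x1
  have q3 : X3 c < X2 a := by rw [aX3, aX2]; exact hxm (hxm x1)
  -- the affine map at minus infinity
  obtain ⟨n, hn⟩ := exists_nat_gt (max (-(X3 a)) (p - φ3 (X3 a) + |p|))
  have n1 := (le_max_left _ _).trans_lt hn
  have n2 := (le_max_right _ _).trans_lt hn
  obtain ⟨L, hL, vL⟩ := affine_perm_10169 1 dp
  have hnn : (0 : ℝ) ≤ n := n.cast_nonneg
  obtain ⟨f1, hf1, a1, b1⟩ := bridge hL P3 (p := -(n : ℝ)) (Dy.nat n).neg d3a (by linarith) (by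
    rw [vL, zpow_one]
    have := abs_nonneg p
    linarith)
  obtain ⟨f2, hf2, a2, b2⟩ := bridge hf1 P2 d3c d2a q3 (by
    rw [b1 _ o3.le, v3, v2, Ba]
    have : X2⁻¹ (p - a) < X3⁻¹ (p - (c - δ)) := by
      apply lt_inv_of mX3.1
      rw [aX3, ← aX2 (X2⁻¹ (p - a)), inv_right, hp]
      have e : a + c - a = c := by ring
      have e' : a + c - (c - δ) = a + δ := by ring
      rw [e, e']; linarith
    linarith)
  obtain ⟨f3, hf3, a3, b3⟩ := bridge hf2 P1 d2c dxa q2 (by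
    rw [b2 _ o2.le, v2, v1, Aa, Bc]
    have : x⁻¹ (p - a) < X2⁻¹ (p - c) := by
      apply lt_inv_of mX2.1
      rw [aX2, inv_right, hp]
      have e : a + c - a = c := by ring
      have e' : a + c - c = a := by ring
      rw [e, e']; exact x1
    linarith)
  obtain ⟨φ, hφ, a4, b4⟩ := bridge hf3 (one_mem PLH) dxc ha x1 (by
    rw [b3 _ o1.le, v1, Ac, Equiv.Perm.one_apply]
    have e' : p - c = a := by rw [hp]; ring
    rw [e']; linarith)
  have φa : φ a = a := b4 a le_rfl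
  have φc : φ c = c := b4 c hac.le
  have w1 : ∀ t, x a ≤ t → t ≤ x c → φ t = φ1 t := fun t h h' => by
    rw [a4 t h', b3 t h]
  have w2 : ∀ t, X2 a ≤ t → t ≤ X2 c → φ t = φ2 t := fun t h h' => by
    rw [a4 t (by linarith), a3 t h', b2 t h]
  have w3 : ∀ t, X3 a ≤ t → t ≤ X3 c → φ t = φ3 t := fun t h h' => by
    rw [a4 t (by linarith), a3 t (by linarith), a2 t h', b1 t h]
  have w4 : ∀ t, t ≤ -(n : ℝ) → φ t = 2 * t + p := fun t h => by
    rw [a4 t (by linarith), a3 t (by linarith), a2 t (by linarith), a1 t h, vL, zpow_one]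
  -- the expanding map
  obtain ⟨m, hm⟩ := exists_nat_gt (max 1 (2 * |c|))
  have m1 := (le_max_left _ _).trans_lt hm
  have m2 := (le_max_right _ _).trans_lt hm
  have ac1 := le_abs_self c
  have ac2 := neg_abs_le c
  have ac3 := abs_nonneg c
  obtain ⟨L1, hL1, vL1⟩ := affine_perm_10169 2 (c := -(3 * c)) (h3.mul dc).neg
  obtain ⟨L2, hL2, vL2⟩ := affine_perm_10169 2 (c := 0) Dy.zero
  have z2 : (2 : ℝ) ^ (2 : ℤ) = 4 := by norm_num
  obtain ⟨e, he, ea, eb⟩ := bridge hL1 hL2 (p := (m : ℝ)) (q := 2 * m) (Dy.nat m)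
    (h2.mul (Dy.nat m)) (by linarith) (by rw [vL1, vL2, z2]; linarith)
  have ec : e c = c := by rw [ea c (by linarith), vL1, z2]; ring
  have egt : ∀ t, c < t → t < e t := by
    intro t ht
    rcases le_total t m with h | h
    · rw [ea t h, vL1, z2]; linarith
    · rcases le_total (2 * m : ℝ) t with h' | h'
      · rw [eb t h', vL2, z2]; linarith
      · have := he.1.monotone h
        rw [ea m le_rfl, vL1, z2] at this
        linarith
  -- Psi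
  have hψ : rf p * φ⁻¹ * rf p * e ∈ PLH := mul_mem (rf_conj dp (PLH.inv_mem hφ)) he
  have φia : φ⁻¹ a = a := by rw [Equiv.Perm.inv_eq_iff_eq, φa]
  obtain ⟨ψ, eψ⟩ : ∃ ψ, ψ = rf p * φ⁻¹ * rf p * e := ⟨_, rfl⟩
  rw [← eψ] at hψ
  have vψ : ∀ t, ψ t = p - φ⁻¹ (p - e t) := by
    intro t; rw [eψ]
    simp only [Equiv.Perm.mul_apply, rf_apply]
  obtain ⟨Φ, hΦ, g1, g2⟩ := PLH_glue hφ hψ dc (by
    rw [φc, vψ, ec]
    have e' : p - c = a := by rw [hp]; ring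
    rw [e', φia, hp]; ring)
  refine ⟨rf p * Φ, ?_, ?_, ?_, ?_, ?_, ?_, ?_⟩
  · rw [← mul_assoc, nu_rf]
    exact mul_mem (tr_mem dp.neg) hΦ
  · refine ⟨max (2 * m) (max n |c|), fun s hs => ?_⟩
    have r1 := (le_max_left _ _).trans hs
    have r2 := ((le_max_left _ _).trans (le_max_right _ _)).trans hs
    have r3 := ((le_max_right _ _).trans (le_max_right _ _)).trans hs
    rw [Equiv.Perm.mul_apply, rf_apply, zpow_one]
    rcases le_total 0 s with h | h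
    · rw [abs_of_nonneg h] at r1 r2 r3
      rw [g2 s (by linarith), vψ, eb s r1, vL2, z2]
      have : φ⁻¹ (p - (4 * s + 0)) = -2 * s := by
        rw [Equiv.Perm.inv_eq_iff_eq, w4 (-2 * s) (by linarith)]
        ring
      rw [this]; ring
    · rw [abs_of_nonpos h] at r1 r2 r3
      rw [g1 s (by linarith), w4 s (by linarith)]; ring
  · intro t h h'
    rw [Equiv.Perm.mul_apply, rf_apply, g1 t h', b4 t h, hp]; rfl
  · intro t h h'
    have hxt : x a ≤ x t := hxm.monotone h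
    have hxt' : x t ≤ x c := hxm.monotone h'
    rw [Equiv.Perm.mul_apply, rf_apply, g1 _ (by linarith), w1 _ hxt hxt', v1, sub_sub_cancel,
      inv_right, hp]
  · intro t h h'
    have hxt : X2 a ≤ X2 t := mX2.1.monotone h
    have hxt' : X2 t ≤ X2 c := mX2.1.monotone h'
    rw [← aX2 t, Equiv.Perm.mul_apply, rf_apply, g1 _ (by linarith), w2 _ hxt hxt', v2,
      sub_sub_cancel, ← aX2, inv_right, hp]
  · intro t h h'
    have hxt : X3 a ≤ X3 t := mX3.1.monotone h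
    have hxt' : X3 t ≤ X3 c := mX3.1.monotone h'
    rw [← aX3 t, Equiv.Perm.mul_apply, rf_apply, g1 _ (by linarith), w3 _ hxt hxt', v3,
      sub_sub_cancel, ← aX3, inv_right, hp, hc]
    ring
  · intro t ht
    have h1 := egt t ht
    have h2 : (rf p * Φ) t = φ⁻¹ (p - e t) := by
      rw [Equiv.Perm.mul_apply, rf_apply, g2 t ht.le, vψ, sub_sub_cancel]
    have h3 : φ⁻¹ (p - e t) ≤ a := by
      rw [← φia]
      apply (PLH.inv_mem hφ).1.monotone
      rw [hp]; linarith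
    rw [h2, Equiv.Perm.mul_apply, rf_apply, g1 _ (by linarith), inv_right, sub_sub_cancel]
    exact h1

end Pool.Agent.Q31.SP
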